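import Pool.Agent.R326.RS.Final

/-!
# No strong law of large numbers for independent random convex sets with a common compact expectation

There are a Hilbert space, a uniformly bounded sequence of independent random bounded convex sets,
all with the same compact expectation `U`, whose Minkowski averages do not converge to `U`, at any
point of the probability space.
-/

set_option autoImplicit false

namespace Pool.Agent.Results.MP_aabed8_pr.CommonExpectation

open MeasureTheory Filter Topology
open Pool.Agent.R326.RS

theorem result : ∃ (X : Type) (_ : NormedAddCommGroup X) (_ : InnerProductSpace ℝ X)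
    (_ : CompleteSpace X), BConvex X ∧
    ∃ (Ω : Type) (_ : MeasurableSpace Ω) (μ : Measure Ω) (_ : IsProbabilityMeasure μ)
      (Ψ : ℕ → Ω → BC X) (U : BC X), IndepWithExpectation μ Ψ U ∧
      (∃ r : ℝ, ∀ n ω, ∀ x ∈ (Ψ n ω).carrier, ‖x‖ ≤ r) ∧ IsCompact U.carrier ∧
      ∀ ω, ¬ Tendsto (fun n => Metric.hausdorffDist (avg Ψ n ω) U.carrier) atTop (𝓝 0) :=
  no_slln

end Pool.Agent.Results.MP_aabed8_pr.CommonExpectation
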